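import Pool.Agent.Y136.SumP.Main

/-!
# A large set with property (P)
-/

set_option autoImplicit false

open MeasureTheory AddCircle
open Pool.Agent.Results.MP_535799_an.NonSidon

namespace Pool.Agent.Y136.SumP

/-- Equal sums of two elements are equal up to the order. -/
def B2 (S : Set ℤ) : Prop :=
  ∀ a ∈ S, ∀ b ∈ S, ∀ c ∈ S, ∀ d ∈ S, a + b = c + d → a = c ∨ a = d

/-- the finite sets of the construction -/
def Good (k : ℕ) (S : Finset ℤ) : Prop :=
  B2 (S : Set ℤ) ∧ S.card = k ∧ ∀ n ∈ S, 1 ≤ n ∧ n ≤ (k : ℤ) ^ 3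

lemma good_zero : Good 0 ∅ :=
  ⟨fun a ha => absurd ha (by simp), rfl, fun n hn => absurd hn (by simp)⟩

lemma good_step (k : ℕ) (S : Finset ℤ) (hS : Good k S) : ∃ S', S ⊆ S' ∧ Good (k + 1) S' := by
  classical
  obtain ⟨h1, h2, h3⟩ := hS
  let D1 : Finset ℤ := (S ×ˢ (S ×ˢ S)).image fun p => p.2.1 + p.2.2 - p.1
  let D2 : Finset ℤ := (S ×ˢ S).image fun p => (p.1 + p.2) / 2
  have hD1 : D1.card ≤ k ^ 3 := by
    refine Finset.card_image_le.trans (le_of_eq ?_)
    rw [Finset.card_product, Finset.card_product, h2]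
    ring
  have hD2 : D2.card ≤ k ^ 2 := by
    refine Finset.card_image_le.trans (le_of_eq ?_)
    rw [Finset.card_product, h2]
    ring
  have hlt : (D1 ∪ D2).card < (Finset.Icc (1 : ℤ) ((k : ℤ) ^ 3 + (k : ℤ) ^ 2 + 1)).card := by
    rw [Int.card_Icc]
    have e1 : ((k : ℤ) ^ 3 + (k : ℤ) ^ 2 + 1 + 1 - 1).toNat = k ^ 3 + k ^ 2 + 1 := by
      have : ((k : ℤ) ^ 3 + (k : ℤ) ^ 2 + 1 + 1 - 1) = ((k ^ 3 + k ^ 2 + 1 : ℕ) : ℤ) := by
        push_cast
        ring
      rw [this, Int.toNat_natCast]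
    rw [e1]
    have := Finset.card_union_le D1 D2
    omega
  obtain ⟨x, hx, hxD⟩ := Finset.exists_mem_notMem_of_card_lt_card hlt
  rw [Finset.mem_union, not_or] at hxD
  rw [Finset.mem_Icc] at hx
  have hx1 : ∀ a ∈ S, ∀ b ∈ S, ∀ c ∈ S, x ≠ b + c - a := by
    intro a ha b hb c hc h
    apply hxD.1
    rw [Finset.mem_image]
    exact ⟨(a, (b, c)), by simp [ha, hb, hc], h.symm⟩
  have hx2 : ∀ b ∈ S, ∀ c ∈ S, 2 * x ≠ b + c := by
    intro b hb c hc h
    apply hxD.2
    rw [Finset.mem_image]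
    exact ⟨(b, c), by simp [hb, hc], by simp only; omega⟩
  have hxS : x ∉ S := fun h => hx1 x h x h x h (by ring)
  refine ⟨insert x S, Finset.subset_insert x S, ?_, ?_, ?_⟩
  · intro a ha b hb c hc d hd h
    rw [Finset.mem_coe, Finset.mem_insert] at ha hb hc hd
    rcases ha with ha | ha <;> rcases hb with hb | hb <;> rcases hc with hc | hc <;>
      rcases hd with hd | hd
    · left; omega
    · left; omega
    · right; omega
    · exact absurd (by omega) (hx2 c hc d hd)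
    · left; omega
    · left; omega
    · right; omega
    · exact absurd (by omega) (hx1 b hb c hc d hd)
    · left; omega
    · right; omega
    · left; omega
    · exact absurd (by omega) (hx1 a ha c hc d hd)
    · exact absurd (by omega) (hx2 a ha b hb)
    · exact absurd (by omega) (hx1 d hd a ha b hb)
    · exact absurd (by omega) (hx1 c hc a ha b hb)
    · exact h1 a ha b hb c hc d hd h
  · rw [Finset.card_insert_of_notMem hxS, h2]
  · intro n hn
    have hk : (k : ℤ) ^ 3 + (k : ℤ) ^ 2 + 1 ≤ ((k + 1 : ℕ) : ℤ) ^ 3 := by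
      push_cast
      have h0 : (0 : ℤ) ≤ k := Int.natCast_nonneg k
      nlinarith [sq_nonneg (k : ℤ)]
    rw [Finset.mem_insert] at hn
    rcases hn with hn | hn
    · rw [hn]
      exact ⟨hx.1, hx.2.trans hk⟩
    · have := h3 n hn
      refine ⟨this.1, this.2.trans (le_trans ?_ hk)⟩
      nlinarith [sq_nonneg (k : ℤ)]

/-- the sequence of finite sets -/
noncomputable def seqT : (k : ℕ) → {S : Finset ℤ // Good k S}
  | 0 => ⟨∅, good_zero⟩
  | k + 1 => ⟨(good_step k (seqT k).1 (seqT k).2).choose,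
      (good_step k (seqT k).1 (seqT k).2).choose_spec.2⟩

lemma seqT_succ (k : ℕ) : (seqT k).1 ⊆ (seqT (k + 1)).1 :=
  (good_step k (seqT k).1 (seqT k).2).choose_spec.1

lemma seqT_mono {k l : ℕ} (h : k ≤ l) : (seqT k).1 ⊆ (seqT l).1 := by
  induction l, h using Nat.le_induction with
  | base => exact Finset.Subset.refl _
  | succ l _ ih => exact ih.trans (seqT_succ l)

/-- A set of positive integers with property (P) and at least `k` elements up to `k ^ 3`. -/
theorem dense_P : ∃ Q : Set ℤ, (∀ n ∈ Q, 0 < n) ∧ (∀ Q' ⊆ Q, PropertyP Q') ∧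
    ∀ k : ℕ, ∃ S : Finset ℤ, (S : Set ℤ) ⊆ Q ∧ S.card = k ∧ ∀ n ∈ S, n ≤ (k : ℤ) ^ 3 := by
  classical
  let Q : Set ℤ := {n | ∃ k, n ∈ (seqT k).1}
  have hB : B2 Q := by
    rintro a ⟨k1, ha⟩ b ⟨k2, hb⟩ c ⟨k3, hc⟩ d ⟨k4, hd⟩ h
    have e1 : k1 ≤ k1 + k2 + k3 + k4 := by omega
    have e2 : k2 ≤ k1 + k2 + k3 + k4 := by omega
    have e3 : k3 ≤ k1 + k2 + k3 + k4 := by omega
    have e4 : k4 ≤ k1 + k2 + k3 + k4 := by omega
    exact (seqT (k1 + k2 + k3 + k4)).2.1 a (seqT_mono e1 ha) b (seqT_mono e2 hb) c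
      (seqT_mono e3 hc) d (seqT_mono e4 hd) h
  refine ⟨Q, ?_, ?_, ?_⟩
  · rintro n ⟨k, hn⟩
    have := ((seqT k).2.2.2 n hn).1
    omega
  · intro Q' hQ'
    refine propertyP_of_sq Q' (summable_of_spectrum Q' ?_)
    intro F hF m
    rcases ((F ×ˢ F).filter (fun p => p.1 + p.2 = m)).eq_empty_or_nonempty with h | ⟨p0, hp0⟩
    · rw [h]; simp
    · rw [Finset.mem_filter, Finset.mem_product] at hp0
      have hsub : (F ×ˢ F).filter (fun p => p.1 + p.2 = m) ⊆
          ({p0.1, p0.2} : Finset ℤ).image (fun q => (q, m - q)) := by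
        intro p hp
        rw [Finset.mem_filter, Finset.mem_product] at hp
        have h1 := hB p.1 (hQ' (hF hp.1.1)) p.2 (hQ' (hF hp.1.2)) p0.1 (hQ' (hF hp0.1.1)) p0.2
          (hQ' (hF hp0.1.2)) (by rw [hp.2, hp0.2])
        rw [Finset.mem_image]
        refine ⟨p.1, by simpa using h1, ?_⟩
        ext
        · rfl
        · show m - p.1 = p.2
          rw [← hp.2]
          ring
      refine (Finset.card_le_card hsub).trans (Finset.card_image_le.trans ?_)
      exact Finset.card_le_two.trans (by norm_num)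
  · intro k
    exact ⟨(seqT k).1, fun n hn => ⟨k, hn⟩, (seqT k).2.2.1, fun n hn => ((seqT k).2.2.2 n hn).2⟩

end Pool.Agent.Y136.SumP
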