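import Pool.Agent.Results.MP_535799_an.NonSidon

/-!
# Non-Sidon sets with property (P) in sumsets of infinite sets
-/

set_option autoImplicit false

open MeasureTheory AddCircle
open Pool.Agent.Results.MP_535799_an.NonSidon

namespace Pool.Agent.Y136.SumP

/-- Linear independence for small coefficients. -/
lemma indep (a : ℕ → ℤ) (ha : ∀ n, 4 * ∑ i ∈ Finset.range n, |a i| < |a n|) (c : ℕ → ℤ)
    (hc : ∀ i, |c i| ≤ 4) (n : ℕ) (h : ∑ i ∈ Finset.range n, c i * a i = 0) :
    ∀ i < n, c i = 0 := by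
  induction n with
  | zero => intro i hi; omega
  | succ n ih =>
    rw [Finset.sum_range_succ] at h
    have hcn : c n = 0 := by
      by_contra hne
      have h1 : 1 ≤ |c n| := Int.one_le_abs hne
      have h2 : |∑ i ∈ Finset.range n, c i * a i| ≤ 4 * ∑ i ∈ Finset.range n, |a i| := by
        refine (Finset.abs_sum_le_sum_abs _ _).trans ?_
        rw [Finset.mul_sum]
        refine Finset.sum_le_sum fun i _ => ?_
        rw [abs_mul]
        exact mul_le_mul_of_nonneg_right (hc i) (abs_nonneg _)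
      have h3 : |∑ i ∈ Finset.range n, c i * a i| = |c n| * |a n| := by
        rw [← abs_mul, ← abs_neg (c n * a n)]
        congr 1
        linarith
      have h4 : |a n| ≤ |c n| * |a n| := le_mul_of_one_le_left (abs_nonneg _) h1
      have h5 := ha n
      linarith
    rw [hcn, zero_mul, add_zero] at h
    intro i hi
    rcases Nat.lt_succ_iff_lt_or_eq.mp hi with h1 | h1
    · exact ih h i h1
    · rw [h1]; exact hcn

/-- the indicator of `x` -/
def ind (x y : ℕ) : ℤ := if y = x then 1 else 0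

lemma sum_ind (a : ℕ → ℤ) (x n : ℕ) (h : x < n) :
    ∑ y ∈ Finset.range n, ind x y * a y = a x := by
  unfold ind
  simp [h]

lemma ind_nonneg (x y : ℕ) : 0 ≤ ind x y ∧ ind x y ≤ 1 := by
  unfold ind
  split_ifs <;> simp

lemma rep4 (a : ℕ → ℤ) (ha : ∀ n, 4 * ∑ i ∈ Finset.range n, |a i| < |a n|)
    (i j k l i' j' k' l' : ℕ)
    (h : a (2 * i) + a (2 * j + 1) + a (2 * k) + a (2 * l + 1) =
      a (2 * i') + a (2 * j' + 1) + a (2 * k') + a (2 * l' + 1)) :
    (i = i' ∨ i = k') ∧ (j = j' ∨ j = l') := by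
  let n : ℕ := 2 * (i + j + k + l + i' + j' + k' + l') + 2
  let c : ℕ → ℤ := fun y => ind (2 * i) y + ind (2 * j + 1) y + ind (2 * k) y + ind (2 * l + 1) y -
    (ind (2 * i') y + ind (2 * j' + 1) y + ind (2 * k') y + ind (2 * l' + 1) y)
  have hc : ∀ y, |c y| ≤ 4 := by
    intro y
    have h1 := ind_nonneg (2 * i) y
    have h2 := ind_nonneg (2 * j + 1) y
    have h3 := ind_nonneg (2 * k) y
    have h4 := ind_nonneg (2 * l + 1) y
    have h5 := ind_nonneg (2 * i') y
    have h6 := ind_nonneg (2 * j' + 1) y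
    have h7 := ind_nonneg (2 * k') y
    have h8 := ind_nonneg (2 * l' + 1) y
    rw [abs_le]
    constructor <;> · simp only [c]; omega
  have hs : ∑ y ∈ Finset.range n, c y * a y = 0 := by
    simp only [c, sub_mul, add_mul, Finset.sum_sub_distrib, Finset.sum_add_distrib]
    rw [sum_ind a (2 * i) n (by omega), sum_ind a (2 * j + 1) n (by omega),
      sum_ind a (2 * k) n (by omega), sum_ind a (2 * l + 1) n (by omega),
      sum_ind a (2 * i') n (by omega), sum_ind a (2 * j' + 1) n (by omega),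
      sum_ind a (2 * k') n (by omega), sum_ind a (2 * l' + 1) n (by omega)]
    linarith
  have hz := indep a ha c hc n hs
  constructor
  · have h1 := hz (2 * i) (by omega)
    simp only [c, ind] at h1
    by_contra hcon
    push Not at hcon
    rw [if_pos trivial, if_neg (show ¬ 2 * i = 2 * j + 1 by omega),
      if_neg (show ¬ 2 * i = 2 * l + 1 by omega), if_neg (show ¬ 2 * i = 2 * i' by omega),
      if_neg (show ¬ 2 * i = 2 * j' + 1 by omega), if_neg (show ¬ 2 * i = 2 * k' by omega),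
      if_neg (show ¬ 2 * i = 2 * l' + 1 by omega)] at h1
    split_ifs at h1 <;> omega
  · have h1 := hz (2 * j + 1) (by omega)
    simp only [c, ind] at h1
    by_contra hcon
    push Not at hcon
    rw [if_neg (show ¬ 2 * j + 1 = 2 * i by omega), if_pos trivial,
      if_neg (show ¬ 2 * j + 1 = 2 * k by omega), if_neg (show ¬ 2 * j + 1 = 2 * i' by omega),
      if_neg (show ¬ 2 * j + 1 = 2 * j' + 1 by omega), if_neg (show ¬ 2 * j + 1 = 2 * k' by omega),
      if_neg (show ¬ 2 * j + 1 = 2 * l' + 1 by omega)] at h1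
    split_ifs at h1 <;> omega

/-- The set of the sums `a (2 i) + a (2 j + 1)`. -/
def sumQ (a : ℕ → ℤ) : Set ℤ := {n | ∃ i j : ℕ, n = a (2 * i) + a (2 * j + 1)}

lemma sumQ_reps (a : ℕ → ℤ) (ha : ∀ n, 4 * ∑ i ∈ Finset.range n, |a i| < |a n|)
    (F : Finset ℤ) (hF : (F : Set ℤ) ⊆ sumQ a) (m : ℤ) :
    ((F ×ˢ F).filter (fun p => p.1 + p.2 = m)).card ≤ 4 := by
  classical
  rcases ((F ×ˢ F).filter (fun p => p.1 + p.2 = m)).eq_empty_or_nonempty with h | ⟨p0, hp0⟩
  · rw [h]; simp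
  · rw [Finset.mem_filter, Finset.mem_product] at hp0
    obtain ⟨⟨h1, h2⟩, h3⟩ := hp0
    obtain ⟨i', j', e1⟩ := hF h1
    obtain ⟨k', l', e2⟩ := hF h2
    have hsub : (F ×ˢ F).filter (fun p => p.1 + p.2 = m) ⊆
        ((({i', k'} : Finset ℕ) ×ˢ ({j', l'} : Finset ℕ)).image
          (fun q => (a (2 * q.1) + a (2 * q.2 + 1), m - (a (2 * q.1) + a (2 * q.2 + 1))))) := by
      intro p hp
      rw [Finset.mem_filter, Finset.mem_product] at hp
      obtain ⟨⟨g1, g2⟩, g3⟩ := hp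
      obtain ⟨i, j, e3⟩ := hF g1
      obtain ⟨k, l, e4⟩ := hF g2
      have hz : a (2 * i) + a (2 * j + 1) + a (2 * k) + a (2 * l + 1) =
          a (2 * i') + a (2 * j' + 1) + a (2 * k') + a (2 * l' + 1) := by
        rw [e3, e4] at g3
        rw [e1, e2] at h3
        linarith
      obtain ⟨hi, hj⟩ := rep4 a ha i j k l i' j' k' l' hz
      rw [Finset.mem_image]
      refine ⟨(i, j), ?_, ?_⟩
      · rw [Finset.mem_product, Finset.mem_insert, Finset.mem_singleton, Finset.mem_insert,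
          Finset.mem_singleton]
        exact ⟨hi, hj⟩
      · ext
        · exact e3.symm
        · show m - _ = p.2
          rw [← e3, ← g3]; ring
    refine (Finset.card_le_card hsub).trans (Finset.card_image_le.trans ?_)
    rw [Finset.card_product]
    calc _ ≤ 2 * 2 := Nat.mul_le_mul (Finset.card_le_two) (Finset.card_le_two)
      _ = 4 := by norm_num

lemma sumQ_propertyP (a : ℕ → ℤ) (ha : ∀ n, 4 * ∑ i ∈ Finset.range n, |a i| < |a n|) :
    PropertyP (sumQ a) :=
  propertyP_of_sq (sumQ a) (summable_of_spectrum (sumQ a) (sumQ_reps a ha))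

/-- The parametrisation. -/
def psi (a : ℕ → ℤ) (m : ℕ) (p : ZMod m × ZMod m) : ℤ := a (2 * p.1.val) + a (2 * p.2.val + 1)

lemma psi_inj (a : ℕ → ℤ) (ha : ∀ n, 4 * ∑ i ∈ Finset.range n, |a i| < |a n|) (m : ℕ) [NeZero m] :
    Function.Injective (psi a m) := by
  intro p q h
  unfold psi at h
  have h1 := rep4 a ha p.1.val p.2.val p.1.val p.2.val q.1.val q.2.val q.1.val q.2.val (by linarith)
  exact Prod.ext (ZMod.val_injective m (by tauto)) (ZMod.val_injective m (by tauto))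

lemma sumQ_not_sidon (a : ℕ → ℤ) (ha : ∀ n, 4 * ∑ i ∈ Finset.range n, |a i| < |a n|) :
    ¬ IsSidonSet (sumQ a) := by
  rintro ⟨C, hC⟩
  obtain ⟨m', hm'⟩ := exists_nat_gt (C ^ 2)
  set m := m' + 1 with hm
  have : NeZero m := ⟨by omega⟩
  have hmC : C ^ 2 < m := by rw [hm]; push_cast; linarith
  set S : Finset ℤ := Finset.univ.map ⟨psi a m, psi_inj a ha m⟩ with hS
  have hSQ : (S : Set ℤ) ⊆ sumQ a := by
    intro n hn
    rw [hS, Finset.mem_coe, Finset.mem_map] at hn
    obtain ⟨p, _, rfl⟩ := hn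
    exact ⟨p.1.val, p.2.val, rfl⟩
  set b : ℤ → ℂ := Function.extend (psi a m) (fun p => ZMod.stdAddChar (p.1 * p.2)) 0 with hb
  have hbφ : ∀ p, b (psi a m p) = ZMod.stdAddChar (p.1 * p.2) := fun p =>
    (psi_inj a ha m).extend_apply _ _ p
  have h := hC S hSQ b
  have hl : ∑ n ∈ S, ‖b n‖ = (m : ℝ) ^ 2 := by
    rw [hS, Finset.sum_map]
    simp only [Function.Embedding.coeFn_mk, hbφ, AddChar.norm_apply]
    simp [ZMod.card, sq]
  have hr : (⨆ x : ℝ, ‖∑ n ∈ S, b n * Complex.exp (Complex.I * n * x)‖) ≤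
      Real.sqrt ((m : ℝ) ^ 3) := by
    apply ciSup_le
    intro x
    apply Real.le_sqrt_of_sq_le
    have h1 : ∑ n ∈ S, b n * Complex.exp (Complex.I * n * x) =
        ∑ p : ZMod m × ZMod m, ZMod.stdAddChar (p.1 * p.2) *
          (Complex.exp (((((a (2 * p.1.val) : ℤ) : ℝ) * x : ℝ) : ℂ) * Complex.I) *
            Complex.exp (((((a (2 * p.2.val + 1) : ℤ) : ℝ) * x : ℝ) : ℂ) * Complex.I)) := by
      rw [hS, Finset.sum_map]
      refine Finset.sum_congr rfl (fun p _ => ?_)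
      simp only [Function.Embedding.coeFn_mk, hbφ]
      congr 1
      rw [← Complex.exp_add]
      congr 1
      unfold psi
      push_cast
      ring
    rw [h1]
    exact bilinear_bound m
      (fun i => Complex.exp (((((a (2 * i.val) : ℤ) : ℝ) * x : ℝ) : ℂ) * Complex.I))
      (fun j => Complex.exp (((((a (2 * j.val + 1) : ℤ) : ℝ) * x : ℝ) : ℂ) * Complex.I))
      (fun i => Complex.norm_exp_ofReal_mul_I _) (fun i => Complex.norm_exp_ofReal_mul_I _)
  have hmpos : (0 : ℝ) < m := by rw [hm]; positivity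
  rw [hl] at h
  have hsup0 : 0 ≤ (⨆ x : ℝ, ‖∑ n ∈ S, b n * Complex.exp (Complex.I * n * x)‖) :=
    Real.iSup_nonneg (fun _ => norm_nonneg _)
  rcases le_or_gt C 0 with hC0 | hC0
  · have : C * (⨆ x : ℝ, ‖∑ n ∈ S, b n * Complex.exp (Complex.I * n * x)‖) ≤ 0 :=
      mul_nonpos_of_nonpos_of_nonneg hC0 hsup0
    have : (0:ℝ) < (m : ℝ) ^ 2 := by positivity
    linarith
  · have h2 : (m : ℝ) ^ 2 ≤ C * Real.sqrt ((m : ℝ) ^ 3) :=
      h.trans (mul_le_mul_of_nonneg_left hr hC0.le)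
    have h3 : ((m : ℝ) ^ 2) ^ 2 ≤ (C * Real.sqrt ((m : ℝ) ^ 3)) ^ 2 :=
      pow_le_pow_left₀ (by positivity) h2 2
    rw [mul_pow, Real.sq_sqrt (by positivity)] at h3
    have h4 : (m : ℝ) ^ 3 * m ≤ (m : ℝ) ^ 3 * C ^ 2 := by nlinarith
    have h5 := le_of_mul_le_mul_left h4 (by positivity)
    linarith

/-- an element of large absolute value -/
lemma exists_large {A : Set ℤ} (hA : A.Infinite) (B : ℤ) : ∃ y ∈ A, B < |y| := by
  obtain ⟨y, hy, hn⟩ := hA.exists_notMem_finset (Finset.Icc (-B) B)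
  refine ⟨y, hy, ?_⟩
  by_contra hcon
  push Not at hcon
  exact hn (Finset.mem_Icc.mpr (abs_le.mp hcon))

/-- two infinite sets contain the even and the odd terms of a sequence with large gaps -/
lemma exists_seq {A B : Set ℤ} (hA : A.Infinite) (hB : B.Infinite) :
    ∃ a : ℕ → ℤ, (∀ i, a (2 * i) ∈ A) ∧ (∀ i, a (2 * i + 1) ∈ B) ∧
      ∀ n, 4 * ∑ i ∈ Finset.range n, |a i| < |a n| := by
  obtain ⟨f, hf, hr⟩ := exists_seq_of_forall_finset_exists
    (fun p : ℤ × ℤ => (p.1 ∈ A ∧ p.2 ∈ B) ∧ 0 < |p.1| ∧ 5 * |p.1| < |p.2|)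
    (fun p q => 5 * |p.2| < |q.1|) (by
      intro s _
      obtain ⟨x, hx, hx'⟩ := exists_large hA (5 * ∑ p ∈ s, |p.2|)
      obtain ⟨y, hy, hy'⟩ := exists_large hB (5 * |x|)
      have h0 : 0 ≤ ∑ p ∈ s, |p.2| := Finset.sum_nonneg fun p _ => abs_nonneg _
      refine ⟨(x, y), ⟨⟨hx, hy⟩, by simp only; omega, hy'⟩, fun p hp => ?_⟩
      have h1 : |p.2| ≤ ∑ p ∈ s, |p.2| :=
        Finset.single_le_sum (f := fun p : ℤ × ℤ => |p.2|) (fun p _ => abs_nonneg _) hp
      simp only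
      omega)
  let a : ℕ → ℤ := fun n => if n % 2 = 0 then (f (n / 2)).1 else (f (n / 2)).2
  have he : ∀ i, a (2 * i) = (f i).1 := by
    intro i
    simp only [a]
    rw [if_pos (by omega), show 2 * i / 2 = i by omega]
  have ho : ∀ i, a (2 * i + 1) = (f i).2 := by
    intro i
    simp only [a]
    rw [if_neg (by omega), show (2 * i + 1) / 2 = i by omega]
  have hstep : ∀ n, 5 * |a n| < |a (n + 1)| := by
    intro n
    rcases Nat.even_or_odd' n with ⟨i, hi | hi⟩
    · rw [hi, he, ho]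
      exact (hf i).2.2
    · rw [hi, ho, show 2 * i + 1 + 1 = 2 * (i + 1) by ring, he]
      exact hr i (i + 1) (Nat.lt_succ_self i)
  refine ⟨a, fun i => by rw [he]; exact (hf i).1.1, fun i => by rw [ho]; exact (hf i).1.2, ?_⟩
  intro n
  induction n with
  | zero =>
    rw [Finset.sum_range_zero, mul_zero]
    have := (hf 0).2.1
    rw [show (0 : ℕ) = 2 * 0 by rfl, he]
    exact this
  | succ n ih =>
    rw [Finset.sum_range_succ]
    have := hstep n
    linarith

/-- main statement -/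
theorem main_sum :
    (∀ Q : Set ℤ, (∀ f : L1, (∀ n : ℤ, n ∉ Q → coeff f n = 0) →
      Summable (fun n => ‖coeff f n‖ ^ 2)) → PropertyP Q) ∧
    (∀ Q : Set ℤ, (∀ m : ℤ, {p : ℤ × ℤ | p.1 ∈ Q ∧ p.2 ∈ Q ∧ p.1 + p.2 = m}.encard ≤ 4) →
      PropertyP Q) ∧
    ∀ A B : Set ℤ, A.Infinite → B.Infinite →
      ∃ Q : Set ℤ, (∀ n ∈ Q, ∃ x ∈ A, ∃ y ∈ B, n = x + y) ∧
        (∀ Q' ⊆ Q, PropertyP Q') ∧ ¬ IsSidonSet Q := by
  refine ⟨propertyP_of_sq, ?_, ?_⟩
  · intro Q hQ
    refine propertyP_of_sq Q (summable_of_spectrum Q ?_)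
    intro F hF m
    have h1 : ((((F ×ˢ F).filter (fun p => p.1 + p.2 = m) : Finset (ℤ × ℤ)) : Set (ℤ × ℤ))).encard
        ≤ 4 := by
      refine (Set.encard_le_encard ?_).trans (hQ m)
      intro p hp
      rw [Finset.mem_coe, Finset.mem_filter, Finset.mem_product] at hp
      exact ⟨hF hp.1.1, hF hp.1.2, hp.2⟩
    rw [Set.encard_coe_eq_coe_finsetCard] at h1
    exact_mod_cast h1
  · intro A B hA hB
    obtain ⟨a, h1, h2, h3⟩ := exists_seq hA hB
    refine ⟨sumQ a, ?_, ?_, sumQ_not_sidon a h3⟩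
    · rintro n ⟨i, j, rfl⟩
      exact ⟨a (2 * i), h1 i, a (2 * j + 1), h2 j, rfl⟩
    · intro Q' hQ'
      exact propertyP_of_sq Q' (summable_of_spectrum Q' fun F hF m =>
        sumQ_reps a h3 F (hF.trans hQ') m)

end Pool.Agent.Y136.SumP
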